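import Pool.Agent.Results.MP_f75ac6_al.NoMaximal

/-!
# The lattice of all sets of real numbers above every inclusive variety

Stronger form of `NoMaximal` (there is no maximal nonelementary inclusive variety of semigroups).

Let `M` be any inclusive variety, elementary or not, other than the class of all semigroups. Then the
nonelementary inclusive varieties properly containing `M` include a copy of the lattice of all
nonempty sets `B` of sets of natural numbers, ordered by reverse inclusion.

Proof. `M` satisfies `u₀ ∈ {u₀}ᶜ` for some word `u₀`. Put `u = u₀ u₀ u₀ (0 1) (0 1) (0 1)`; every letter of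
`u` occurs at least three times. For a set `N` of natural numbers let `E N` be the set of `u` and of
the words `1 0 ... 0 1` with `|u| + 1 + n` zeros, `n ∈ N`, and let `inc N` be the inclusion `u ∈ (E N)ᶜ`.
The class `F B` consists of the semigroups which satisfy `inc (code K)` for all `K ∈ B`, where
`code` is an injection of the sets of natural numbers into an antichain of such sets.
No word of `E N` is a proper factor of another one, so that `E N` is a class of the congruence of the
free semigroup which identifies the words of `E N` and identifies the words which are not factors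
of words of `E N`. The quotient `T N` does not satisfy `inc N`, but it satisfies `inc K` as soon as `K`
does not contain `N`: if the value of `u` is not zero, then it is `u` itself, and the value is also
attained at one of the words `1 0 ... 0 1`, or all letters of `u` are mapped to powers of `0`, and the
value is also attained at a rearrangement of `u`.
-/

set_option autoImplicit false

namespace Pool.Agent.Results.MP_f75ac6_al.SubsetsAbove

open Pool.Agent.Results.MP_f75ac6_al.NoMaximal

universe u

/-! ### Quotients of the free semigroup by antichains of words -/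

/-- `l` is a factor of a word of `E` -/
def Fac (E : Set (List ℕ)) (l : List ℕ) : Prop := ∃ w ∈ E, l <:+: w

/-- no word of `E` is a proper factor of another word of `E` -/
def Anti (E : Set (List ℕ)) : Prop := ∀ v ∈ E, ∀ w ∈ E, v <:+: w → v = w

lemma fac_self {E : Set (List ℕ)} {l : List ℕ} (h : l ∈ E) : Fac E l := ⟨l, h, List.infix_rfl⟩

lemma fac_left {E : Set (List ℕ)} {v c : FreeSemigroup ℕ} (h : Fac E (letters (v * c))) :
    Fac E (letters v) := by
  obtain ⟨w, hw, h1⟩ := h
  rw [letters_mul] at h1
  exact ⟨w, hw, (List.prefix_append _ _).isInfix.trans h1⟩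

lemma fac_right {E : Set (List ℕ)} {v c : FreeSemigroup ℕ} (h : Fac E (letters (c * v))) :
    Fac E (letters v) := by
  obtain ⟨w, hw, h1⟩ := h
  rw [letters_mul] at h1
  exact ⟨w, hw, (List.suffix_append _ _).isInfix.trans h1⟩

lemma not_fac_left {E : Set (List ℕ)} (hE : Anti E) {v : FreeSemigroup ℕ} (hv : letters v ∈ E)
    (c : FreeSemigroup ℕ) : ¬ Fac E (letters (v * c)) := by
  rintro ⟨w, hw, h1⟩
  rw [letters_mul] at h1
  have h2 := hE _ hv w hw ((List.prefix_append _ _).isInfix.trans h1)
  have h3 := h1.length_le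
  rw [← h2, List.length_append] at h3
  have h4 := List.length_pos_iff.2 (letters_ne_nil c)
  omega

lemma not_fac_right {E : Set (List ℕ)} (hE : Anti E) {v : FreeSemigroup ℕ} (hv : letters v ∈ E)
    (c : FreeSemigroup ℕ) : ¬ Fac E (letters (c * v)) := by
  rintro ⟨w, hw, h1⟩
  rw [letters_mul] at h1
  have h2 := hE _ hv w hw ((List.suffix_append _ _).isInfix.trans h1)
  have h3 := h1.length_le
  rw [← h2, List.length_append] at h3
  have h4 := List.length_pos_iff.2 (letters_ne_nil c)
  omega

/-- The relation: equal, or both in `E`, or both not a factor of a word of `E`. -/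
def rel (E : Set (List ℕ)) (v w : FreeSemigroup ℕ) : Prop :=
  v = w ∨ (letters v ∈ E ∧ letters w ∈ E) ∨ (¬ Fac E (letters v) ∧ ¬ Fac E (letters w))

lemma rel_trans {E : Set (List ℕ)} {v w x : FreeSemigroup ℕ} (h : rel E v w) (h' : rel E w x) :
    rel E v x := by
  rcases h with h | h | h
  · rw [h]; exact h'
  · rcases h' with h' | h' | h'
    · rw [← h']; exact Or.inr (Or.inl h)
    · exact Or.inr (Or.inl ⟨h.1, h'.2⟩)
    · exact absurd (fac_self h.2) h'.1
  · rcases h' with h' | h' | h'
    · rw [← h']; exact Or.inr (Or.inr h)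
    · exact absurd (fac_self h'.1) h.2
    · exact Or.inr (Or.inr ⟨h.1, h'.2⟩)

lemma rel_mul_right {E : Set (List ℕ)} (hE : Anti E) {v w : FreeSemigroup ℕ} (h : rel E v w)
    (c : FreeSemigroup ℕ) : rel E (v * c) (w * c) := by
  rcases h with h | h | h
  · exact Or.inl (by rw [h])
  · exact Or.inr (Or.inr ⟨not_fac_left hE h.1 c, not_fac_left hE h.2 c⟩)
  · exact Or.inr (Or.inr ⟨fun h1 => h.1 (fac_left h1), fun h1 => h.2 (fac_left h1)⟩)

lemma rel_mul_left {E : Set (List ℕ)} (hE : Anti E) {v w : FreeSemigroup ℕ} (h : rel E v w)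
    (c : FreeSemigroup ℕ) : rel E (c * v) (c * w) := by
  rcases h with h | h | h
  · exact Or.inl (by rw [h])
  · exact Or.inr (Or.inr ⟨not_fac_right hE h.1 c, not_fac_right hE h.2 c⟩)
  · exact Or.inr (Or.inr ⟨fun h1 => h.1 (fac_right h1), fun h1 => h.2 (fac_right h1)⟩)

/-- The relation is a congruence. -/
def con (E : Set (List ℕ)) (hE : Anti E) : Con (FreeSemigroup ℕ) where
  r := rel E
  iseqv := ⟨fun v => Or.inl rfl, by
    rintro v w (h | h | h)
    · exact Or.inl h.symm
    · exact Or.inr (Or.inl ⟨h.2, h.1⟩)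
    · exact Or.inr (Or.inr ⟨h.2, h.1⟩), fun h h' => rel_trans h h'⟩
  mul' := fun {_ b c _} h h' => rel_trans (rel_mul_right hE h c) (rel_mul_left hE h' b)

/-- Homomorphisms of the free semigroup to a quotient of the free semigroup can be lifted. -/
lemma exists_lift (c : Con (FreeSemigroup ℕ)) (φ : FreeSemigroup ℕ →ₙ* c.Quotient) :
    ∃ ψ : FreeSemigroup ℕ →ₙ* FreeSemigroup ℕ,
      ∀ w, φ w = ((ψ w : FreeSemigroup ℕ) : c.Quotient) := by
  choose f hf using fun x : ℕ => (Quotient.exists_rep (φ (FreeSemigroup.of x)))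
  refine ⟨FreeSemigroup.lift f, fun w => ?_⟩
  induction w using FreeSemigroup.recOnMul with
  | ih1 x => rw [FreeSemigroup.lift_of]; exact (hf x).symm
  | ih2 x y h1 h2 => rw [map_mul, h1, h2, map_mul]; rfl

/-! ### Substitutions -/

lemma letters_map (ψ : FreeSemigroup ℕ →ₙ* FreeSemigroup ℕ) (w : FreeSemigroup ℕ) :
    letters (ψ w) = (letters w).flatMap fun x => letters (ψ (FreeSemigroup.of x)) := by
  induction w using FreeSemigroup.recOnMul with
  | ih1 x => simp [letters]
  | ih2 x y h1 h2 => rw [map_mul, letters_mul, letters_mul, h1, h2, List.flatMap_append]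

lemma length_le_flatMap (g : ℕ → List ℕ) (hg : ∀ x, g x ≠ []) (l : List ℕ) :
    l.length ≤ (l.flatMap g).length := by
  induction l with
  | nil => simp
  | cons a l ih =>
    rw [List.flatMap_cons, List.length_append, List.length_cons]
    have := List.length_pos_iff.2 (hg a)
    omega

/-- A substitution which maps a word to itself fixes the letters of the word. -/
lemma fix_letters (g : ℕ → List ℕ) (hg : ∀ x, g x ≠ []) (l : List ℕ) (h : l.flatMap g = l) :
    ∀ x ∈ l, g x = [x] := by
  induction l with
  | nil => simp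
  | cons a l ih =>
    rw [List.flatMap_cons] at h
    have h1 := length_le_flatMap g hg l
    have h2 := congrArg List.length h
    rw [List.length_append, List.length_cons] at h2
    have h3 := List.length_pos_iff.2 (hg a)
    obtain ⟨b, hb⟩ := List.length_eq_one_iff.1 (show (g a).length = 1 by omega)
    rw [hb, List.singleton_append, List.cons.injEq] at h
    intro x hx
    rcases List.mem_cons.1 hx with hx | hx
    · rw [hx, hb, h.1]
    · exact ih h.2 x hx

lemma count_flatMap_ge (g : ℕ → List ℕ) (x y : ℕ) (l : List ℕ) :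
    l.count x * (g x).count y ≤ (l.flatMap g).count y := by
  induction l with
  | nil => simp
  | cons a l ih =>
    rw [List.flatMap_cons, List.count_append, List.count_cons]
    by_cases h : a = x
    · subst h
      simp only [beq_self_eq_true, if_true, add_mul, one_mul]
      omega
    · have h' : (a == x) = false := by simpa using h
      rw [h']
      simp only [Bool.false_eq_true, if_false, add_zero]
      omega

/-! ### The words -/

/-- the word `1 0 ... 0 1` with `n` zeros, as a list -/
def ab (n : ℕ) : List ℕ := 1 :: (List.replicate n 0 ++ [1])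

/-- the word `1 0 ... 0 1` with `n` zeros -/
def abw (n : ℕ) : FreeSemigroup ℕ := ⟨1, List.replicate n 0 ++ [1]⟩

lemma letters_abw (n : ℕ) : letters (abw n) = ab n := rfl

lemma count_ab (n : ℕ) : (ab n).count 1 = 2 := by
  unfold ab
  rw [List.count_cons, List.count_append, List.count_replicate]
  simp

lemma length_ab (n : ℕ) : (ab n).length = n + 2 := by
  unfold ab
  simp

lemma mem_ab {n x : ℕ} (h : x ∈ ab n) : x = 0 ∨ x = 1 := by
  unfold ab at h
  rw [List.mem_cons, List.mem_append, List.mem_replicate, List.mem_singleton] at h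
  tauto

lemma reverse_ab (n : ℕ) : (ab n).reverse = ab n := by
  unfold ab
  rw [List.reverse_cons, List.reverse_append, List.reverse_replicate]
  rfl

lemma ab_infix_aux {n m : ℕ} {s t : List ℕ} (h : s ++ ab n ++ t = ab m) : s = [] := by
  rcases s with _ | ⟨a, s⟩
  · rfl
  · exfalso
    have h1 := congrArg (List.count 1) h
    rw [List.count_append, List.count_append, count_ab, count_ab] at h1
    have h2 : a = 1 := by
      unfold ab at h
      rw [List.cons_append, List.cons_append, List.cons.injEq] at h
      exact h.1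
    rw [h2, List.count_cons_self] at h1
    omega

lemma ab_infix {n m : ℕ} (h : ab n <:+: ab m) : n = m := by
  obtain ⟨s, t, h⟩ := h
  have h1 : s = [] := ab_infix_aux h
  have h2 : t.reverse ++ ab n ++ s.reverse = ab m := by
    have := congrArg List.reverse h
    rw [List.reverse_append, List.reverse_append, reverse_ab, reverse_ab, ← List.append_assoc]
      at this
    exact this
  have h3 : t.reverse = [] := ab_infix_aux h2
  rw [h1, List.reverse_eq_nil_iff.1 h3] at h
  have h4 := congrArg List.length h
  rw [List.nil_append, List.append_nil, length_ab, length_ab] at h4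
  omega

/-- the end of the word `u` -/
def zz : FreeSemigroup ℕ := ⟨0, [1, 0, 1, 0, 1]⟩

/-- the end of the rearranged word `u` -/
def zz' : FreeSemigroup ℕ := ⟨0, [1, 0, 1, 1, 0]⟩

/-- the end of `uu u₀` after `u₀` -/
def ss (u₀ : FreeSemigroup ℕ) : FreeSemigroup ℕ := u₀ * (u₀ * zz)

/-- the word `u₀ u₀ u₀ 0 1 0 1 0 1` -/
def uu (u₀ : FreeSemigroup ℕ) : FreeSemigroup ℕ := u₀ * ss u₀

/-- a rearrangement of the word `uu u₀` -/
def uu' (u₀ : FreeSemigroup ℕ) : FreeSemigroup ℕ := u₀ * (u₀ * (u₀ * zz'))

lemma letters_uu (u₀ : FreeSemigroup ℕ) : letters (uu u₀) =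
    letters u₀ ++ (letters u₀ ++ (letters u₀ ++ [0, 1, 0, 1, 0, 1])) := by
  unfold uu ss
  rw [letters_mul, letters_mul, letters_mul]
  rfl

lemma letters_uu' (u₀ : FreeSemigroup ℕ) : letters (uu' u₀) =
    letters u₀ ++ (letters u₀ ++ (letters u₀ ++ [0, 1, 0, 1, 1, 0])) := by
  unfold uu'
  rw [letters_mul, letters_mul, letters_mul]
  rfl

lemma perm_uu (u₀ : FreeSemigroup ℕ) : (letters (uu' u₀)).Perm (letters (uu u₀)) := by
  rw [letters_uu, letters_uu']
  refine List.Perm.append_left _ (List.Perm.append_left _ (List.Perm.append_left _ ?_))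
  decide

lemma uu'_ne (u₀ : FreeSemigroup ℕ) : uu' u₀ ≠ uu u₀ := by
  intro h
  have h1 := congrArg letters h
  rw [letters_uu, letters_uu'] at h1
  have h2 := List.append_cancel_left (List.append_cancel_left (List.append_cancel_left h1))
  simp at h2

lemma count_uu (u₀ : FreeSemigroup ℕ) (x : ℕ) (hx : x ∈ letters (uu u₀)) :
    3 ≤ (letters (uu u₀)).count x := by
  rw [letters_uu] at hx ⊢
  simp only [List.count_append]
  by_cases h : x ∈ letters u₀
  · have := List.count_pos_iff.2 h
    omega
  · have h2 : x = 0 ∨ x = 1 := by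
      simp only [List.mem_append, List.mem_cons, List.not_mem_nil, or_false] at hx
      tauto
    rcases h2 with h2 | h2
    · subst h2
      have : List.count 0 [0, 1, 0, 1, 0, 1] = 3 := by decide
      omega
    · subst h2
      have : List.count 1 [0, 1, 0, 1, 0, 1] = 3 := by decide
      omega

lemma zero_mem_uu (u₀ : FreeSemigroup ℕ) : 0 ∈ letters (uu u₀) := by
  rw [letters_uu]; simp

lemma one_mem_uu (u₀ : FreeSemigroup ℕ) : 1 ∈ letters (uu u₀) := by
  rw [letters_uu]; simp

lemma count_ss (u₀ : FreeSemigroup ℕ) : 3 ≤ (letters (ss u₀)).count 1 := by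
  unfold ss
  rw [letters_mul, letters_mul, List.count_append, List.count_append]
  have : List.count 1 (letters zz) = 3 := by decide
  omega

/-- the word `uu u₀` and the words `1 0 ... 0 1` with `|uu u₀| + 1 + n` zeros, `n ∈ N` -/
def EE (u₀ : FreeSemigroup ℕ) (N : Set ℕ) : Set (List ℕ) :=
  {l | l = letters (uu u₀) ∨ ∃ n ∈ N, l = ab ((letters (uu u₀)).length + 1 + n)}

lemma notMem_EE {u₀ : FreeSemigroup ℕ} (N : Set ℕ) {v : FreeSemigroup ℕ}
    (h3 : 3 ≤ (letters v).count 1) (hv : v ≠ uu u₀) : letters v ∉ EE u₀ N := by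
  rintro (h | ⟨n, -, h⟩)
  · exact hv (letters_injective h)
  · rw [h, count_ab] at h3
    omega

lemma anti_EE (u₀ : FreeSemigroup ℕ) (N : Set ℕ) : Anti (EE u₀ N) := by
  rintro v (hv | ⟨n, -, hv⟩) w (hw | ⟨m, -, hw⟩) h
  · rw [hv, hw]
  · exfalso
    have h1 := h.count_le 1
    rw [hv, hw, count_ab] at h1
    have := count_uu u₀ 1 (one_mem_uu u₀)
    omega
  · exfalso
    have h1 := h.length_le
    rw [hv, hw, length_ab] at h1
    omega
  · rw [hv, hw] at h
    rw [hv, hw, ab_infix h]

lemma mul_ne_left (v w : FreeSemigroup ℕ) : v * w ≠ v := by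
  intro h
  have h1 := congrArg letters h
  rw [letters_mul] at h1
  exact letters_ne_nil w (by simpa using h1)

lemma notMem_mul (u₀ : FreeSemigroup ℕ) (N : Set ℕ) (v : FreeSemigroup ℕ) :
    letters (uu u₀ * v) ∉ EE u₀ N := by
  refine notMem_EE N ?_ (mul_ne_left _ _)
  rw [letters_mul, List.count_append]
  have := count_uu u₀ 1 (one_mem_uu u₀)
  omega

/-- The inclusion `uu u₀ ∈ (EE u₀ N)ᶜ`. -/
def incl (u₀ : FreeSemigroup ℕ) (N : Set ℕ) : IdInclusion where
  word := uu u₀
  set := {v | letters v ∉ EE u₀ N}
  nonempty := ⟨uu u₀ * uu u₀, notMem_mul u₀ N _⟩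

/-- The semigroup `T N`. -/
abbrev TT (u₀ : FreeSemigroup ℕ) (N : Set ℕ) : Type := (con (EE u₀ N) (anti_EE u₀ N)).Quotient

lemma mk_eq (u₀ : FreeSemigroup ℕ) (N : Set ℕ) (v w : FreeSemigroup ℕ) :
    ((v : TT u₀ N) = (w : TT u₀ N)) ↔ rel (EE u₀ N) v w :=
  (con (EE u₀ N) (anti_EE u₀ N)).eq

lemma not_sat (u₀ : FreeSemigroup ℕ) (N : Set ℕ) : ¬ Satisfies (TT u₀ N) (incl u₀ N) := by
  intro h
  obtain ⟨v, hv, e⟩ := h (con (EE u₀ N) (anti_EE u₀ N)).mkMulHom
  have hu : letters (uu u₀) ∈ EE u₀ N := Or.inl rfl
  rcases (mk_eq u₀ N _ _).1 e with h1 | h1 | h1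
  · exact hv (by rw [← show uu u₀ = v from h1]; exact hu)
  · exact hv h1.2
  · exact h1.1 (fac_self hu)

lemma sat (u₀ : FreeSemigroup ℕ) {N K : Set ℕ} (hNK : ¬ N ⊆ K) :
    Satisfies (TT u₀ N) (incl u₀ K) := by
  intro φ
  obtain ⟨ψ, hψ⟩ := exists_lift _ φ
  set g : ℕ → List ℕ := fun x => letters (ψ (FreeSemigroup.of x)) with hgdef
  have hg : ∀ x, g x ≠ [] := fun x => letters_ne_nil _
  by_cases h0 : Fac (EE u₀ N) (letters (ψ (uu u₀)))
  · obtain ⟨w, hw | ⟨n, hn, hw⟩, hin⟩ := h0
    · -- the value is `u`
      rw [hw] at hin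
      have h1 : letters (ψ (uu u₀)) = letters (uu u₀) := hin.eq_of_length_le (length_le ψ (uu u₀))
      have h2 : ∀ x ∈ letters (uu u₀), g x = [x] := by
        apply fix_letters g hg
        rw [← h1]
        rw [h1]
        exact (letters_map ψ (uu u₀)).symm.trans h1
      obtain ⟨n, hn, hnK⟩ := Set.not_subset.1 hNK
      refine ⟨abw ((letters (uu u₀)).length + 1 + n), ?_, ?_⟩
      · rintro (h | ⟨m, hm, h⟩)
        · have h3 := congrArg (List.count 1) h
          rw [letters_abw, count_ab] at h3
          have := count_uu u₀ 1 (one_mem_uu u₀)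
          omega
        · have h3 := congrArg List.length h
          rw [letters_abw, length_ab, length_ab] at h3
          apply hnK
          rw [show n = m by omega]
          exact hm
      · change φ (uu u₀) = _
        rw [hψ, hψ, mk_eq]
        right; left
        refine ⟨Or.inl h1, Or.inr ⟨n, hn, ?_⟩⟩
        rw [letters_map, letters_abw]
        have h4 : ∀ l : List ℕ, (∀ x ∈ l, x = 0 ∨ x = 1) → l.flatMap g = l := by
          intro l
          induction l with
          | nil => intro _; rfl
          | cons a l ih =>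
            intro hl
            rw [List.flatMap_cons, ih fun x hx => hl x (List.mem_cons_of_mem _ hx)]
            rcases hl a List.mem_cons_self with ha | ha
            · rw [ha, h2 0 (zero_mem_uu u₀)]; rfl
            · rw [ha, h2 1 (one_mem_uu u₀)]; rfl
        exact h4 _ fun x hx => mem_ab hx
    · -- all letters are mapped to powers of `0`
      rw [hw] at hin
      refine ⟨uu' u₀, notMem_EE K ?_ (uu'_ne u₀), ?_⟩
      · rw [(perm_uu u₀).count_eq]
        exact count_uu u₀ 1 (one_mem_uu u₀)
      · change φ (uu u₀) = _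
        rw [hψ, hψ]
        have h1 : letters (ψ (uu u₀)) = (letters (uu u₀)).flatMap g := letters_map ψ (uu u₀)
        have h2 : ∀ x ∈ letters (uu u₀), (g x).count 1 = 0 := by
          intro x hx
          have h3 := count_flatMap_ge g x 1 (letters (uu u₀))
          have h4 := hin.count_le 1
          rw [count_ab, h1] at h4
          have h5 := count_uu u₀ x hx
          by_contra h6
          have h7 : 3 * 1 ≤ (letters (uu u₀)).count x * (g x).count 1 :=
            Nat.mul_le_mul h5 (Nat.one_le_iff_ne_zero.2 h6)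
          omega
        have h3 : ∀ y ∈ (letters (uu u₀)).flatMap g, y = 0 := by
          intro y hy
          obtain ⟨x, hx, hxy⟩ := List.mem_flatMap.1 hy
          have h4 : y ∈ ab ((letters (uu u₀)).length + 1 + n) := hin.subset (by rw [h1]; exact hy)
          rcases mem_ab h4 with h5 | h5
          · exact h5
          · exfalso
            rw [h5] at hxy
            exact (List.count_pos_iff.2 hxy).ne' (h2 x hx)
        have h4 := List.eq_replicate_of_mem h3
        have h5 : ((letters (uu' u₀)).flatMap g).Perm ((letters (uu u₀)).flatMap g) :=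
          (perm_uu u₀).flatMap_right g
        rw [h4, List.perm_replicate] at h5
        rw [← h4] at h5
        have h6 : ψ (uu u₀) = ψ (uu' u₀) := by
          apply letters_injective
          rw [h1, letters_map ψ (uu' u₀)]
          exact h5.symm
        rw [h6]
  · -- the value is zero
    refine ⟨uu u₀ * uu u₀, notMem_mul u₀ K _, ?_⟩
    change φ (uu u₀) = _
    rw [hψ, hψ, mk_eq]
    right; right
    refine ⟨h0, fun h => h0 ?_⟩
    rw [map_mul] at h
    exact fac_left h

/-! ### Finite groups, free nilpotent semigroups -/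

lemma group_sat (G : Type) [Group G] [Finite G] (u₀ : FreeSemigroup ℕ) (N : Set ℕ) :
    Satisfies G (incl u₀ N) := by
  intro φ
  have key : ∀ n : ℕ, ∃ v : FreeSemigroup ℕ, φ v = φ (FreeSemigroup.of 0) ^ (n + 1) := by
    intro n
    induction n with
    | zero => exact ⟨FreeSemigroup.of 0, by simp⟩
    | succ n ih =>
      obtain ⟨v, h2⟩ := ih
      exact ⟨FreeSemigroup.of 0 * v, by rw [map_mul, h2, pow_succ' _ (n + 1)]⟩
  obtain ⟨v, h2⟩ := key (orderOf (φ (FreeSemigroup.of 0)) - 1)
  have hpos := orderOf_pos (φ (FreeSemigroup.of 0))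
  rw [Nat.sub_add_cancel hpos, pow_orderOf_eq_one] at h2
  refine ⟨uu u₀ * v, notMem_mul u₀ N v, ?_⟩
  change φ (uu u₀) = _
  rw [map_mul, h2, mul_one]

/-- A class which contains all finite groups and not the free semigroup is nonelementary. -/
lemma nonelementary (M : SemigroupClass.{u})
    (hG : ∀ (G : Type) [Group G] [Finite G], M (ULift.{u} G))
    (hF : ¬ M (ULift.{u} (FreeSemigroup ℕ))) : ¬ IsElementary M := by
  classical
  rintro ⟨E, hfin, hE⟩
  have hfree : ∀ i ∈ E, Satisfies (FreeSemigroup ℕ) i := by
    intro i hi φ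
    by_contra hcon
    push Not at hcon
    obtain ⟨β, hβ, π, hπ⟩ := exists_perms
      (insert (letters (φ i.word)) ((hfin i hi).toFinset.image fun v => letters (φ v)))
    have h1 : M (ULift.{u} (Equiv.Perm β)) := hG _
    have h2 := (satisfies_ulift _).1 ((hE _).1 h1 i hi)
    obtain ⟨v, hv, e⟩ := h2 ((FreeSemigroup.lift π).comp φ)
    apply hcon v hv
    apply letters_injective
    apply hπ _ (Finset.mem_insert_self _ _) _
      (Finset.mem_insert_of_mem (Finset.mem_image.2 ⟨v, by simpa using hv, rfl⟩))
    rw [MulHom.comp_apply, MulHom.comp_apply, lift_eq_prod, lift_eq_prod] at e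
    exact e
  exact hF ((hE _).2 fun i hi => (satisfies_ulift i).2 (hfree i hi))

lemma nil_sat (u₀ : FreeSemigroup ℕ) (N : Set ℕ) :
    Satisfies (Nil (letters u₀).length) (incl u₀ N) := by
  intro φ
  obtain ⟨ψ, hψ⟩ := exists_lift _ φ
  refine ⟨uu u₀ * uu u₀, notMem_mul u₀ N _, ?_⟩
  change φ (uu u₀) = φ (uu u₀ * uu u₀)
  rw [hψ, hψ, mk_eq_iff]
  right
  have h1 := length_le ψ (uu u₀)
  have h2 := length_le ψ (uu u₀ * uu u₀)
  rw [letters_mul, List.length_append] at h2
  have h3 : (letters u₀).length < (letters (uu u₀)).length := by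
    rw [letters_uu]
    simp only [List.length_append, List.length_cons]
    omega
  omega

lemma mod_sat {u₀ : FreeSemigroup ℕ} (N : Set ℕ) (S : Type u) [Semigroup S] (h : Mod u₀ S) :
    Satisfies S (incl u₀ N) := by
  intro φ
  obtain ⟨v, hv, e⟩ := h φ
  refine ⟨v * ss u₀, notMem_EE N ?_ ?_, ?_⟩
  · rw [letters_mul, List.count_append]
    have := count_ss u₀
    omega
  · intro h1
    apply hv
    have h2 := congrArg letters h1
    unfold uu at h2
    rw [letters_mul, letters_mul] at h2
    exact letters_injective (List.append_cancel_right h2)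
  · change φ (u₀ * ss u₀) = _
    rw [map_mul, map_mul]
    exact congrArg (· * φ (ss u₀)) e

/-! ### The theorem -/

/-- An injection of the sets of natural numbers onto an antichain of sets. -/
def code (K : Set ℕ) : Set ℕ := {n | n / 2 ∈ K ↔ n % 2 = 0}

lemma code_subset {K L : Set ℕ} (h : code K ⊆ code L) : K = L := by
  have h1 : ∀ k, k ∈ K → k ∈ L := by
    intro k hk
    have h2 : 2 * k ∈ code K := by
      change (2 * k) / 2 ∈ K ↔ (2 * k) % 2 = 0
      rw [Nat.mul_div_cancel_left k (by norm_num), Nat.mul_mod_right]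
      exact ⟨fun _ => rfl, fun _ => hk⟩
    have h3 : (2 * k) / 2 ∈ L ↔ (2 * k) % 2 = 0 := h h2
    rw [Nat.mul_div_cancel_left k (by norm_num), Nat.mul_mod_right] at h3
    exact h3.2 rfl
  have h2 : ∀ k, k ∉ K → k ∉ L := by
    intro k hk
    have e1 : (2 * k + 1) / 2 = k := by omega
    have e2 : (2 * k + 1) % 2 = 1 := by omega
    have h2 : 2 * k + 1 ∈ code K := by
      change (2 * k + 1) / 2 ∈ K ↔ (2 * k + 1) % 2 = 0
      rw [e1, e2]
      exact ⟨fun h => absurd h hk, fun h => absurd h one_ne_zero⟩
    have h3 : (2 * k + 1) / 2 ∈ L ↔ (2 * k + 1) % 2 = 0 := h h2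
    rw [e1, e2] at h3
    exact fun h4 => absurd (h3.1 h4) one_ne_zero
  ext k
  exact ⟨h1 k, fun h3 => by_contra fun h4 => h2 k h4 h3⟩

/-- For every inclusive variety `M` other than the class of all semigroups there is a map `F` of the
sets of sets of natural numbers to the classes of semigroups such that `F B` is a nonelementary
inclusive variety properly containing `M` for every nonempty `B`, and `F C` is contained in
`F B` if and only if `B` is contained in `C`. -/
theorem result (M : SemigroupClass.{u}) (hM : IsInclusiveVariety M)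
    (hne : ∃ (S : Type u) (_ : Semigroup S), ¬ M S) :
    ∃ F : Set (Set ℕ) → SemigroupClass.{u},
      (∀ B : Set (Set ℕ), B.Nonempty →
        IsInclusiveVariety (F B) ∧ ¬ IsElementary (F B) ∧ ProperlyContained M (F B)) ∧
      ∀ B C : Set (Set ℕ), (∀ (S : Type u) [Semigroup S], F C S → F B S) ↔ B ⊆ C := by
  obtain ⟨E, hE⟩ := hM
  obtain ⟨i, hi, hi2⟩ : ∃ i ∈ E, i.word ∉ i.set := by
    by_contra hcon
    push Not at hcon
    obtain ⟨S, hS, hMS⟩ := hne
    exact hMS ((hE S).2 fun i hi φ => ⟨i.word, hcon i hi, rfl⟩)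
  have hMod : ∀ (S : Type u) [Semigroup S], M S → Mod i.word S := by
    intro S _ h φ
    obtain ⟨v, hv, e⟩ := (hE S).1 h i hi φ
    exact ⟨v, fun h' => hi2 (by rw [← show v = i.word from h']; exact hv), e⟩
  refine ⟨fun B S _ => ∀ K ∈ B, Satisfies S (incl i.word (code K)), fun B hB => ⟨?_, ?_, ?_, ?_⟩,
    fun B C => ⟨fun h K hK => ?_, fun h S _ hS K hK => hS K (h hK)⟩⟩
  · refine ⟨(fun K => incl i.word (code K)) '' B, fun S _ => ?_⟩
    rw [Set.forall_mem_image]
  · apply nonelementary
    · intro G _ _ K _
      exact (satisfies_ulift _).2 (group_sat G _ _)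
    · intro h
      obtain ⟨K, hK⟩ := hB
      obtain ⟨v, hv, e⟩ := (satisfies_ulift _).1 (h K hK) (MulHom.id _)
      apply hv
      rw [← show uu i.word = v from e]
      exact Or.inl rfl
  · intro S _ h K _
    exact mod_sat _ S (hMod S h)
  · refine ⟨ULift.{u} (Nil (letters i.word).length), inferInstance, ?_, ?_⟩
    · intro K _
      exact (satisfies_ulift _).2 (nil_sat _ _)
    · intro h
      exact nil_not_satisfies _ ((satisfies_ulift _).1 (hMod _ h))
  · by_contra hKC
    have h1 := h (ULift.{u} (TT i.word (code K))) (fun L hL => (satisfies_ulift _).2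
      (sat i.word fun h2 => hKC (by rw [code_subset h2]; exact hL))) K hK
    exact not_sat i.word (code K) ((satisfies_ulift _).1 h1)

end Pool.Agent.Results.MP_f75ac6_al.SubsetsAbove
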